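import Pool.Agent.H59.L.S8.H176.DT.Stm6
import Pool.Agent.H59.L.S8.Y739.DT6.Et6a

/-!
# Project DT, job DT6-ET (copy B): adjoining a simple root to a stage (helper739)
-/

set_option autoImplicit false

universe u

namespace Pool.Agent.Y739.DT6

open Pool.Agent.H176.DT

theorem et6 : S6_et.{u} := by
  intro E F _ _ _ V C hC hCE s x hreg hx ω f hm hf h0 h1 hgen
  exact et6_of p_ext p_map p_adj p_cut p_alg V C hC hCE x hreg hx ω f hm hf h0 h1 hgen

end Pool.Agent.Y739.DT6
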